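import Pool.Agent.H91.LF.Defs
import Pool.Agent.H75.PS.Main

/-!
Module [PE]: averages of a function with small mean over differences of primes.
-/

set_option autoImplicit false

open Finset Filter

namespace Pool.Agent.H33.LF

open Pool.Agent.H91.LF Pool.Agent.H75.PS
open Pool.Agent.H24.T2 (Pset)

/-- structure of the primes of the scale -/
theorem pset_str (Q m : ℕ) (hQ0 : 0 < Q) (p : ℕ) (hp : p ∈ Pset Q m) :
    ∃ n, p = Q * n + 1 ∧ (2 ^ m + (Q - 1)) / Q ≤ n ∧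
      n < (2 ^ m + (Q - 1)) / Q + (2 ^ m / Q + 1) := by
  unfold Pset at hp
  rw [Finset.mem_filter, Finset.mem_Ioc] at hp
  obtain ⟨⟨h1, h2⟩, hpp, hpQ⟩ := hp
  have h3 : Q ∣ p - 1 := (Nat.modEq_iff_dvd' hpp.one_lt.le).mp hpQ.symm
  obtain ⟨n, hn⟩ := h3
  have hpn : p = Q * n + 1 := by have := hpp.one_lt; omega
  refine ⟨n, hpn, ?_, ?_⟩
  · rw [Nat.div_le_iff_le_mul_add_pred hQ0]
    omega
  · have e1 := ceil_mul Q m hQ0
    by_contra hcon
    rw [not_lt] at hcon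
    have e2 : Q * ((2 ^ m + (Q - 1)) / Q + (2 ^ m / Q + 1)) ≤ Q * n := Nat.mul_le_mul_left Q hcon
    have e3 : 2 ^ m < Q * (2 ^ m / Q + 1) := Nat.lt_mul_div_succ (2 ^ m) hQ0
    rw [Nat.mul_add] at e2
    have e4 : 2 ^ (m + 1) = 2 * 2 ^ m := by ring
    omega

/-- the possible distances -/
def dist (Q m : ℕ) : Finset ℕ := (Finset.Icc 1 (2 ^ m / Q)).filter fun t => Q * t < 2 ^ m

/-- pairs of primes with a given difference -/
theorem fib_le (Q m t : ℕ) (hQ0 : 0 < Q) :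
    (((Pset Q m ×ˢ Pset Q m).filter fun x : ℕ × ℕ => x.2 < x.1).filter
      fun x : ℕ × ℕ => (x.1 - x.2) / Q = t).card ≤ cnt Q m t := by
  unfold cnt
  have key : ∀ x : ℕ × ℕ, x ∈ ((Pset Q m ×ˢ Pset Q m).filter fun x : ℕ × ℕ => x.2 < x.1).filter
      (fun x : ℕ × ℕ => (x.1 - x.2) / Q = t) → ∃ n, x.2 = Q * n + 1 ∧ x.1 = Q * n + 1 + Q * t ∧
        (2 ^ m + (Q - 1)) / Q ≤ n ∧ n < (2 ^ m + (Q - 1)) / Q + (2 ^ m / Q + 1) := by
    intro x hx
    rw [Finset.mem_filter, Finset.mem_filter, Finset.mem_product] at hx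
    obtain ⟨⟨⟨h1, h2⟩, h3⟩, h4⟩ := hx
    obtain ⟨n1, a1, a2, a3⟩ := pset_str Q m hQ0 _ h1
    obtain ⟨n2, b1, b2, b3⟩ := pset_str Q m hQ0 _ h2
    refine ⟨n2, b1, ?_, b2, b3⟩
    rw [a1, b1] at h3 h4
    have h5 : Q * n2 < Q * n1 := by omega
    have h6 : n2 < n1 := lt_of_mul_lt_mul_left h5 (Nat.zero_le Q)
    obtain ⟨k, rfl⟩ := Nat.exists_eq_add_of_lt h6
    have h7 : Q * (n2 + k + 1) + 1 - (Q * n2 + 1) = Q * (k + 1) := by
      rw [show Q * (n2 + k + 1) = Q * n2 + Q * (k + 1) by ring]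
      omega
    rw [h7, Nat.mul_div_cancel_left _ hQ0] at h4
    rw [a1, ← h4]
    ring
  apply Finset.card_le_card_of_injOn (fun x : ℕ × ℕ => (x.2 - 1) / Q)
  · intro x hx
    rw [Finset.mem_coe] at hx
    obtain ⟨n, h1, h2, h3, h4⟩ := key x hx
    have hn : (x.2 - 1) / Q = n := by
      rw [h1, Nat.add_sub_cancel, Nat.mul_div_cancel_left _ hQ0]
    rw [Finset.mem_filter, Finset.mem_filter, Finset.mem_product] at hx
    obtain ⟨⟨⟨g1, g2⟩, _⟩, _⟩ := hx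
    rw [Finset.mem_coe, Finset.mem_filter, Finset.mem_Ico]
    simp only [hn]
    unfold Pset at g1 g2
    rw [Finset.mem_filter] at g1 g2
    refine ⟨⟨h3, h4⟩, ?_, ?_⟩
    · rw [← h1]; exact g2.2.1
    · rw [← h2]; exact g1.2.1
  · intro x hx y hy hxy
    rw [Finset.mem_coe] at hx hy
    obtain ⟨n, h1, h2, h3, h4⟩ := key x hx
    obtain ⟨n', h1', h2', h3', h4'⟩ := key y hy
    simp only at hxy
    rw [h1, h1', Nat.add_sub_cancel, Nat.add_sub_cancel, Nat.mul_div_cancel_left _ hQ0,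
      Nat.mul_div_cancel_left _ hQ0] at hxy
    refine Prod.ext ?_ ?_
    · rw [h2, h2', hxy]
    · rw [h1, h1', hxy]

/-- reduction to a sum over distances -/
theorem pe_sum (Q m : ℕ) (hQ0 : 0 < Q) (Γ : ℤ → ℝ) (h0 : ∀ s, 0 ≤ Γ s) (h1 : ∀ s, Γ s ≤ 1)
    (hs : ∀ s, Γ (-s) = Γ s) :
    ∑ p ∈ Pset Q m, ∑ q ∈ Pset Q m, Γ ((p : ℤ) - q) ≤ ((Pset Q m).card : ℝ) +
      2 * ∑ t ∈ dist Q m, (cnt Q m t : ℝ) * Γ ((Q * t : ℕ) : ℤ) := by
  have hB : ∑ p ∈ Pset Q m, ∑ q ∈ Pset Q m, (if q < p then Γ ((p : ℤ) - q) else 0) ≤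
      ∑ t ∈ dist Q m, (cnt Q m t : ℝ) * Γ ((Q * t : ℕ) : ℤ) := by
    rw [← Finset.sum_product' (Pset Q m) (Pset Q m)
      (fun p q : ℕ => if q < p then Γ ((p : ℤ) - q) else 0), ← Finset.sum_filter]
    have hprop : ∀ x ∈ (Pset Q m ×ˢ Pset Q m).filter (fun x : ℕ × ℕ => x.2 < x.1),
        (x.1 - x.2) / Q ∈ dist Q m ∧ ((x.1 : ℤ) - x.2) = ((Q * ((x.1 - x.2) / Q) : ℕ) : ℤ) := by
      intro x hx
      rw [Finset.mem_filter, Finset.mem_product] at hx
      obtain ⟨⟨g1, g2⟩, g3⟩ := hx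
      obtain ⟨n1, a1, a2, a3⟩ := pset_str Q m hQ0 _ g1
      obtain ⟨n2, b1, b2, b3⟩ := pset_str Q m hQ0 _ g2
      have h5 : Q * n2 < Q * n1 := by omega
      have h6 : n2 < n1 := lt_of_mul_lt_mul_left h5 (Nat.zero_le Q)
      obtain ⟨k, rfl⟩ := Nat.exists_eq_add_of_lt h6
      have h7 : x.1 - x.2 = Q * (k + 1) := by
        rw [a1, b1, show Q * (n2 + k + 1) = Q * n2 + Q * (k + 1) by ring]
        omega
      have h8 : (x.1 - x.2) / Q = k + 1 := by rw [h7, Nat.mul_div_cancel_left _ hQ0]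
      unfold Pset at g1 g2
      rw [Finset.mem_filter, Finset.mem_Ioc] at g1 g2
      have h9 : 2 ^ (m + 1) = 2 * 2 ^ m := by ring
      rw [h8]
      refine ⟨?_, ?_⟩
      · unfold dist
        rw [Finset.mem_filter, Finset.mem_Icc]
        have h10 : Q * (k + 1) < 2 ^ m := by omega
        refine ⟨⟨by omega, ?_⟩, h10⟩
        rw [Nat.le_div_iff_mul_le hQ0, mul_comm]
        exact h10.le
      · rw [← h7]
        omega
    rw [← Finset.sum_fiberwise_of_maps_to (fun x hx => (hprop x hx).1)]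
    refine Finset.sum_le_sum fun t _ => ?_
    have h2 : ∀ x ∈ ((Pset Q m ×ˢ Pset Q m).filter fun x : ℕ × ℕ => x.2 < x.1).filter
        (fun x : ℕ × ℕ => (x.1 - x.2) / Q = t), Γ ((x.1 : ℤ) - x.2) = Γ ((Q * t : ℕ) : ℤ) := by
      intro x hx
      rw [Finset.mem_filter] at hx
      rw [(hprop x hx.1).2, hx.2]
    rw [Finset.sum_congr rfl h2, Finset.sum_const, nsmul_eq_mul]
    refine mul_le_mul_of_nonneg_right ?_ (h0 _)
    exact_mod_cast fib_le Q m t hQ0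
  have hsplit : ∀ p q : ℕ, Γ ((p : ℤ) - q) ≤ (if p = q then 1 else 0) +
      ((if q < p then Γ ((p : ℤ) - q) else 0) + (if p < q then Γ ((q : ℤ) - p) else 0)) := by
    intro p q
    rcases lt_trichotomy p q with h | h | h
    · rw [if_neg h.ne, if_neg h.le.not_gt, if_pos h, zero_add, zero_add, ← hs, neg_sub]
    · subst h
      rw [if_pos rfl, if_neg (lt_irrefl p), add_zero, add_zero]
      exact h1 _
    · rw [if_neg h.ne', if_pos h, if_neg h.le.not_gt, zero_add, add_zero]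
  calc ∑ p ∈ Pset Q m, ∑ q ∈ Pset Q m, Γ ((p : ℤ) - q)
      ≤ ∑ p ∈ Pset Q m, ∑ q ∈ Pset Q m, ((if p = q then 1 else 0) +
        ((if q < p then Γ ((p : ℤ) - q) else 0) + (if p < q then Γ ((q : ℤ) - p) else 0))) :=
        Finset.sum_le_sum fun p _ => Finset.sum_le_sum fun q _ => hsplit p q
    _ = ∑ p ∈ Pset Q m, ∑ q ∈ Pset Q m, (if p = q then (1 : ℝ) else 0) +
        (∑ p ∈ Pset Q m, ∑ q ∈ Pset Q m, (if q < p then Γ ((p : ℤ) - q) else 0) +
        ∑ p ∈ Pset Q m, ∑ q ∈ Pset Q m, (if p < q then Γ ((q : ℤ) - p) else 0)) := by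
        simp only [Finset.sum_add_distrib]
    _ ≤ _ := by
        have e1 : ∑ p ∈ Pset Q m, ∑ q ∈ Pset Q m, (if p = q then (1 : ℝ) else 0) =
            ((Pset Q m).card : ℝ) := by
          have : ∀ p ∈ Pset Q m, ∑ q ∈ Pset Q m, (if p = q then (1 : ℝ) else 0) = 1 := by
            intro p hp
            rw [Finset.sum_ite_eq, if_pos hp]
          rw [Finset.sum_congr rfl this, Finset.sum_const, nsmul_eq_mul, mul_one]
        have e2 : ∑ p ∈ Pset Q m, ∑ q ∈ Pset Q m, (if p < q then Γ ((q : ℤ) - p) else 0) =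
            ∑ p ∈ Pset Q m, ∑ q ∈ Pset Q m, (if q < p then Γ ((p : ℤ) - q) else 0) :=
          Finset.sum_comm
        rw [e1, e2]
        linarith

theorem pe_main : StatementPE := by
  intro Q c₀ η hQ0 hQe hc₀ hη
  obtain ⟨m₁, hm₁⟩ := growth Q
  have hQr : (0 : ℝ) < Q := by exact_mod_cast hQ0
  have hφ : (0 : ℝ) < (Nat.totient Q : ℝ) := by exact_mod_cast Nat.totient_pos.mpr hQ0
  have hC := CC_nonneg
  -- the size of the set of primes
  have hbig : ∀ᶠ m : ℕ in atTop, 2 / η ≤ c₀ * 2 ^ m / (Nat.totient Q * m) := by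
    have a1 := (tendsto_pow_const_div_const_pow_of_one_lt 1 (show (1 : ℝ) < 2 by norm_num)).const_mul
      (2 / η * (Nat.totient Q : ℝ) / c₀)
    rw [mul_zero] at a1
    have b1 := a1.eventually (eventually_le_nhds (show (0 : ℝ) < 1 by norm_num))
    filter_upwards [b1, eventually_gt_atTop 0] with m hm hm0
    have hm0' : (0 : ℝ) < m := by exact_mod_cast hm0
    have h2 : (0 : ℝ) < (2 : ℝ) ^ m := by positivity
    rw [pow_one, ← mul_div_assoc, div_le_one h2] at hm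
    rw [le_div_iff₀ (by positivity)]
    have h3 := mul_le_mul_of_nonneg_left hm hc₀.le
    calc 2 / η * ((Nat.totient Q : ℝ) * m) = c₀ * (2 / η * (Nat.totient Q : ℝ) / c₀ * m) := by
          field_simp
      _ ≤ _ := h3
  obtain ⟨m₂, hm₂⟩ := eventually_atTop.1 hbig
  set A : ℝ := 400000 * CC ^ 2 * Q / c₀ ^ 2 + 1 with hA
  have hA0 : 0 < A := by positivity
  refine ⟨(η / (2 * A)) ^ 2, by positivity, max m₁ m₂, fun m hm hP Γ g0 g1 gs hΓ => ?_⟩
  obtain ⟨h96, hQm, hg3, -⟩ := hm₁ m ((le_max_left _ _).trans hm)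
  have hP2 := (hm₂ m ((le_max_right _ _).trans hm)).trans hP
  have hm0 : (0 : ℝ) < m := by
    have : 0 < m := by omega
    exact_mod_cast this
  have hM : (0 : ℝ) < (2 : ℝ) ^ m := by positivity
  set N : ℝ := ((Pset Q m).card : ℝ) with hN
  have hN0 : 0 < N := lt_of_lt_of_le (by positivity) hP2
  set X := (2 : ℝ) ^ m * Q / ((Nat.totient Q : ℝ) ^ 2 * (m : ℝ) ^ 2) with hX
  have hX0 : 0 < X := by positivity
  -- second moment of the counts
  have hc2 : ∑ t ∈ dist Q m, (cnt Q m t : ℝ) ^ 2 ≤ (200000 * X * CC ^ 2) ^ 2 * 2 ^ m := by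
    calc ∑ t ∈ dist Q m, (cnt Q m t : ℝ) ^ 2
        ≤ ∑ t ∈ Finset.Icc 1 (2 ^ m / Q), (200000 * X) ^ 2 *
            (∏ p ∈ t.primeFactors, (1 + 1 / (p : ℝ))) ^ 4 := by
          refine (Finset.sum_le_sum (fun t ht => ?_)).trans
            (Finset.sum_le_sum_of_subset_of_nonneg (Finset.filter_subset _ _)
              fun t _ _ => by positivity)
          unfold dist at ht
          rw [Finset.mem_filter, Finset.mem_Icc] at ht
          have h1 := cnt_le Q m t hQe hQ0 ht.1.1 h96 hQm hg3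
          calc (cnt Q m t : ℝ) ^ 2 ≤
              (200000 * X * (∏ p ∈ t.primeFactors, (1 + 1 / (p : ℝ))) ^ 2) ^ 2 :=
                pow_le_pow_left₀ (Nat.cast_nonneg _) h1 2
            _ = _ := by ring
      _ = (200000 * X) ^ 2 * ∑ t ∈ Finset.Icc 1 (2 ^ m / Q),
            (∏ p ∈ t.primeFactors, (1 + 1 / (p : ℝ))) ^ 4 := by rw [Finset.mul_sum]
      _ ≤ (200000 * X) ^ 2 * (CC ^ 4 * ((2 ^ m / Q : ℕ) : ℝ)) :=
          mul_le_mul_of_nonneg_left (moment _) (by positivity)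
      _ ≤ (200000 * X) ^ 2 * (CC ^ 4 * 2 ^ m) := by
          have h2 : ((2 ^ m / Q : ℕ) : ℝ) ≤ (2 : ℝ) ^ m := by
            have : 2 ^ m / Q ≤ 2 ^ m := Nat.div_le_self _ _
            exact_mod_cast this
          gcongr
      _ = _ := by ring
  have hg2 : ∑ t ∈ dist Q m, Γ ((Q * t : ℕ) : ℤ) ^ 2 ≤ (η / (2 * A)) ^ 2 * 2 ^ m := by
    refine le_trans ?_ hΓ
    calc ∑ t ∈ dist Q m, Γ ((Q * t : ℕ) : ℤ) ^ 2 ≤ ∑ t ∈ dist Q m, Γ ((Q * t : ℕ) : ℤ) := by
          refine Finset.sum_le_sum fun t _ => ?_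
          rw [sq]
          exact mul_le_of_le_one_left (g0 _) (g1 _)
      _ = ∑ s ∈ (dist Q m).image (fun t => Q * t), Γ (s : ℤ) := by
          rw [Finset.sum_image]
          intro a _ b _ hab
          exact Nat.eq_of_mul_eq_mul_left hQ0 hab
      _ ≤ ∑ s ∈ Finset.range (2 ^ m), Γ (s : ℤ) := by
          refine Finset.sum_le_sum_of_subset_of_nonneg ?_ fun s _ _ => g0 _
          intro s hs
          rw [Finset.mem_image] at hs
          obtain ⟨t, ht, rfl⟩ := hs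
          unfold dist at ht
          rw [Finset.mem_filter] at ht
          exact Finset.mem_range.2 ht.2
  have hCS : ∑ t ∈ dist Q m, (cnt Q m t : ℝ) * Γ ((Q * t : ℕ) : ℤ) ≤
      200000 * X * CC ^ 2 * (η / (2 * A)) * 2 ^ m := by
    refine le_of_sq_le_sq ?_ (by positivity)
    calc (∑ t ∈ dist Q m, (cnt Q m t : ℝ) * Γ ((Q * t : ℕ) : ℤ)) ^ 2
        ≤ (∑ t ∈ dist Q m, (cnt Q m t : ℝ) ^ 2) * ∑ t ∈ dist Q m, Γ ((Q * t : ℕ) : ℤ) ^ 2 :=
          Finset.sum_mul_sq_le_sq_mul_sq _ _ _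
      _ ≤ ((200000 * X * CC ^ 2) ^ 2 * 2 ^ m) * ((η / (2 * A)) ^ 2 * 2 ^ m) :=
          mul_le_mul hc2 hg2 (Finset.sum_nonneg fun _ _ => sq_nonneg _) (by positivity)
      _ = _ := by ring
  have hXN : X * 2 ^ m ≤ Q / c₀ ^ 2 * N ^ 2 := by
    have h1 : (c₀ * 2 ^ m / (Nat.totient Q * m)) ^ 2 ≤ N ^ 2 := by
      exact pow_le_pow_left₀ (by positivity) hP 2
    have h2 : X * 2 ^ m = Q / c₀ ^ 2 * (c₀ * 2 ^ m / (Nat.totient Q * m)) ^ 2 := by
      rw [hX]
      field_simp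
    rw [h2]
    exact mul_le_mul_of_nonneg_left h1 (by positivity)
  have h3 := pe_sum Q m hQ0 Γ g0 g1 gs
  have h4 : N ≤ η / 2 * N ^ 2 := by
    have : 1 ≤ η / 2 * N := by
      have := mul_le_mul_of_nonneg_left hP2 (show (0 : ℝ) ≤ η / 2 by positivity)
      rwa [show η / 2 * (2 / η) = 1 by field_simp] at this
    calc N = 1 * N := (one_mul N).symm
      _ ≤ η / 2 * N * N := mul_le_mul_of_nonneg_right this hN0.le
      _ = _ := by ring
  have h5 : 2 * (200000 * X * CC ^ 2 * (η / (2 * A)) * 2 ^ m) ≤ η / 2 * N ^ 2 := by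
    calc 2 * (200000 * X * CC ^ 2 * (η / (2 * A)) * 2 ^ m)
        = 400000 * CC ^ 2 * (η / (2 * A)) * (X * 2 ^ m) := by ring
      _ ≤ 400000 * CC ^ 2 * (η / (2 * A)) * (Q / c₀ ^ 2 * N ^ 2) :=
          mul_le_mul_of_nonneg_left hXN (by positivity)
      _ = (400000 * CC ^ 2 * Q / c₀ ^ 2) / A * (η / 2 * N ^ 2) := by
          field_simp
      _ ≤ 1 * (η / 2 * N ^ 2) := by
          refine mul_le_mul_of_nonneg_right ?_ (by positivity)
          rw [div_le_one hA0, hA]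
          linarith
      _ = _ := one_mul _
  linarith

end Pool.Agent.H33.LF
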