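import Pool.Agent.H28.LF.T1
import Pool.Agent.H67.LF.PIR

/-!
# Theorem U, row RSM: the inequality for partially resampled words
-/

set_option autoImplicit false

open MeasureTheory ProbabilityTheory Filter Topology Finset
open scoped Nat ENNReal

namespace Pool.Agent.H33.LF

open Pool.Agent.H24.T2 (Pset)
open Pool.Agent.H67.AG (avgP ul Inv Rt Av SA kap JJ TT InvZ nxt triv tow XN PN TN XX PX TX prX Fac)
open Pool.Agent.H28.LF
open Pool.Agent.H67.LF (avg_mono avg_add avg_mul avg_sum avg_abs ul_sum int_inv int_bdd pair_sum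
  card_win)

variable (c : Ux)

theorem wt_meas (Z : SA c.X) (b : Fin c.q) : Measurable (c.wt Z b) :=
  (stronglyMeasurable_condExp.mono Z.2).measurable

theorem wt_ae (Z : SA c.X) : ∀ᵐ x ∂c.μ, (∀ b, 0 ≤ c.wt Z b x) ∧ ∑ b, c.wt Z b x = 1 := by
  have hint : ∀ b : Fin c.q, Integrable ((c.a ⁻¹' {b}).indicator (fun _ => (1 : ℝ))) c.μ :=
    fun b => (integrable_const 1).indicator (c.am (measurableSet_singleton b))
  have h1 : ∀ b : Fin c.q, ∀ᵐ x ∂c.μ, 0 ≤ c.wt Z b x := by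
    intro b
    have h := condExp_nonneg (μ := c.μ) (m := Z.1)
      (f := (c.a ⁻¹' {b}).indicator (fun _ => (1 : ℝ)))
      (Filter.Eventually.of_forall fun x => Set.indicator_nonneg (fun _ _ => zero_le_one) x)
    exact h
  have h2 : ∀ᵐ x ∂c.μ, ∑ b, c.wt Z b x = 1 := by
    have h := condExp_finsetSum (μ := c.μ) (s := (univ : Finset (Fin c.q)))
      (f := fun b => (c.a ⁻¹' {b}).indicator (fun _ => (1 : ℝ))) (fun b _ => hint b) Z.1
    have e1 : ∑ b : Fin c.q, (c.a ⁻¹' {b}).indicator (fun _ => (1 : ℝ)) = fun _ => (1 : ℝ) := by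
      funext x
      rw [Finset.sum_apply, Finset.sum_eq_single (c.a x)]
      · rw [Set.indicator_of_mem]
        exact Set.mem_singleton _
      · intro b _ hb
        rw [Set.indicator_of_notMem]
        intro h
        exact hb (Set.mem_singleton_iff.1 h).symm
      · intro h
        exact absurd (Finset.mem_univ _) h
    rw [e1, condExp_const Z.2] at h
    filter_upwards [h] with x hx
    rw [Finset.sum_apply] at hx
    exact hx.symm
  filter_upwards [ae_all_iff.2 h1, h2] with x hx1 hx2 using ⟨hx1, hx2⟩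

theorem vv_meas (Z : SA c.X) : Measurable (c.vv Z) := by
  unfold Ux.vv
  refine measurable_const.max (measurable_const.min ?_)
  exact measurable_const.sub (Finset.measurable_sum _ fun b _ => (wt_meas c Z b).pow_const 2)

theorem vv_nonneg (Z : SA c.X) (x : c.X) : 0 ≤ c.vv Z x := le_max_left _ _

theorem vv_le (Z : SA c.X) (x : c.X) : c.vv Z x ≤ 1 := max_le zero_le_one (min_le_left _ _)

theorem vv_eq (Z : SA c.X) (x : c.X) (h : (∀ b, 0 ≤ c.wt Z b x) ∧ ∑ b, c.wt Z b x = 1) :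
    c.vv Z x = 1 - ∑ b, c.wt Z b x ^ 2 := by
  have h1 : ∀ b, c.wt Z b x ≤ 1 := by
    intro b
    rw [← h.2]
    exact Finset.single_le_sum (f := fun b => c.wt Z b x) (fun b _ => h.1 b) (Finset.mem_univ b)
  have h2 : ∑ b, c.wt Z b x ^ 2 ≤ 1 := by
    rw [← h.2]
    refine Finset.sum_le_sum fun b _ => ?_
    have := h.1 b
    have := h1 b
    nlinarith
  have h3 : 0 ≤ ∑ b, c.wt Z b x ^ 2 := Finset.sum_nonneg fun b _ => sq_nonneg _
  unfold Ux.vv
  rw [min_eq_right (by linarith), max_eq_right (by linarith)]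

open Classical in
/-- the inequality for one prime -/
theorem one_prime (hC : T_CPL) (K L : ℕ) (hKL : K ≤ L) (Z : SA c.X) (th : ℝ) (h0 : 0 ≤ th)
    (h1 : th ≤ 1) (p : ℕ) :
    ((L : ℝ) - 3 * K) * ∫ x, th * c.vv Z x ∂c.μ ≤
      2 * (∑ v : Fin (L + K) → Fin c.q, if v ∈ c.Bad K L p then
        ∫ x, ∏ i, c.wt Z (v i) (c.T^[p * ((i : ℕ) + 1)] x) ∂c.μ else 0) +
      2 * ((L : ℝ) - K) * ∑ d ∈ Icc 1 L,
        ∫ x in Set.univ, (th * c.vv Z x) * (th * c.vv Z (c.T^[p * d] x)) ∂c.μ := by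
  have mp : MeasurePreserving c.T c.μ c.μ := c.erg.toMeasurePreserving
  obtain ⟨g, hg⟩ : ∃ g : c.X → ℝ, g = fun x => th * c.vv Z x := ⟨_, rfl⟩
  have hgm : Measurable g := by
    rw [hg]
    exact (vv_meas c Z).const_mul th
  have hg0 : ∀ x, 0 ≤ g x := fun x => by
    rw [hg]
    exact mul_nonneg h0 (vv_nonneg c Z x)
  have hg1 : ∀ x, g x ≤ 1 := fun x => by
    rw [hg]
    exact mul_le_one₀ h1 (vv_nonneg c Z x) (vv_le c Z x)
  set G : Fin (L + K) → c.X → ℝ := fun i x => g (c.T^[p * ((i : ℕ) + 1)] x) with hG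
  have hGm : ∀ i, Measurable (G i) := fun i => hgm.comp (c.T.measurable.iterate _)
  have hGi : ∀ i, Integrable (G i) c.μ := fun i =>
    int_bdd (hGm i) 1 fun ω => abs_le.2 ⟨by linarith [hg0 (c.T^[p * ((i : ℕ) + 1)] ω)], hg1 _⟩
  have hGGi : ∀ i j, Integrable (fun ω => G i ω * G j ω) c.μ := fun i j =>
    int_bdd ((hGm i).mul (hGm j)) 1 fun ω => abs_le.2
      ⟨by linarith [mul_nonneg (hg0 (c.T^[p * ((i : ℕ) + 1)] ω)) (hg0 (c.T^[p * ((j : ℕ) + 1)] ω))],
        mul_le_one₀ (hg1 _) (hg0 _) (hg1 _)⟩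
  have hae : ∀ᵐ x ∂c.μ, ∀ i : Fin (L + K), (∀ b, 0 ≤ c.wt Z b (c.T^[p * ((i : ℕ) + 1)] x)) ∧
      ∑ b, c.wt Z b (c.T^[p * ((i : ℕ) + 1)] x) = 1 := by
    rw [ae_all_iff]
    intro i
    exact (mp.iterate (p * ((i : ℕ) + 1))).quasiMeasurePreserving.ae (wt_ae c Z)
  set Pr : (Fin (L + K) → Fin c.q) → c.X → ℝ :=
    fun v x => ∏ i, c.wt Z (v i) (c.T^[p * ((i : ℕ) + 1)] x) with hPr
  have hPm : ∀ v, Measurable (Pr v) := fun v =>
    Finset.measurable_prod _ fun i _ => (wt_meas c Z (v i)).comp (c.T.measurable.iterate _)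
  have hPi : ∀ v, Integrable (Pr v) c.μ := by
    intro v
    refine Integrable.of_bound (hPm v).aestronglyMeasurable 1 ?_
    filter_upwards [hae] with x hx
    rw [Real.norm_eq_abs, abs_of_nonneg (Finset.prod_nonneg fun i _ => (hx i).1 (v i))]
    refine Finset.prod_le_one (fun i _ => (hx i).1 (v i)) fun i _ => ?_
    rw [← (hx i).2]
    exact Finset.single_le_sum (f := fun b => c.wt Z b (c.T^[p * ((i : ℕ) + 1)] x))
      (fun b _ => (hx i).1 b) (Finset.mem_univ _)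
  obtain ⟨I, hI⟩ : ∃ I : Finset (Fin (L + K)),
    I = univ.filter fun i : Fin (L + K) => K ≤ (i : ℕ) ∧ (i : ℕ) < L := ⟨_, rfl⟩
  have hmI : ∀ i : Fin (L + K), i ∈ I ↔ K ≤ (i : ℕ) ∧ (i : ℕ) < L := by
    intro i
    rw [hI, Finset.mem_filter]
    exact ⟨fun h => h.2, fun h => ⟨Finset.mem_univ _, h⟩⟩
  have hIc : (I.card : ℝ) = (L : ℝ) - K := by
    rw [hI, card_win K L hKL, Nat.cast_sub hKL]
  obtain ⟨sg, hsg⟩ : ∃ sg : Fin (L + K) → ℝ,
    sg = fun (i : Fin (L + K)) => if K ≤ (i : ℕ) ∧ (i : ℕ) < L then (1 : ℝ) else -1 := ⟨_, rfl⟩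
  have hsgs : ∑ i, sg i = (L : ℝ) - 3 * K := by
    have e1 : ∀ i, sg i = 2 * (if K ≤ (i : ℕ) ∧ (i : ℕ) < L then (1 : ℝ) else 0) - 1 := by
      intro i
      rw [hsg]
      by_cases h : K ≤ (i : ℕ) ∧ (i : ℕ) < L
      · simp only [h, and_self, if_true]
        norm_num
      · simp only [if_neg h]
        norm_num
    rw [Finset.sum_congr rfl fun i _ => e1 i, Finset.sum_sub_distrib, ← Finset.mul_sum,
      ← Finset.sum_filter, ← hI, Finset.sum_const, Finset.sum_const, Finset.card_univ,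
      Fintype.card_fin, nsmul_eq_mul, nsmul_eq_mul, mul_one, mul_one, hIc]
    push_cast
    ring
  obtain ⟨DD, hDD⟩ : ∃ DD : Fin (L + K) → Fin (L + K) → c.X → ℝ, DD = fun (i j : Fin (L + K)) x =>
    if (K ≤ (i : ℕ) ∧ (i : ℕ) < L) ∧ (K ≤ (j : ℕ) ∧ (j : ℕ) < L) ∧ i ≠ j then
      G i x * G j x else 0 := ⟨_, rfl⟩
  have hDDi : ∀ i j, Integrable (DD i j) c.μ := by
    intro i j
    rw [hDD]
    by_cases h : (K ≤ (i : ℕ) ∧ (i : ℕ) < L) ∧ (K ≤ (j : ℕ) ∧ (j : ℕ) < L) ∧ i ≠ j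
    · simp only [if_pos h]
      exact hGGi i j
    · simp only [if_neg h]
      exact integrable_const 0
  have hpt : ∀ᵐ x ∂c.μ, ∑ i, sg i * G i x - ∑ i, ∑ j, DD i j x ≤
      2 * ∑ v : Fin (L + K) → Fin c.q, if v ∈ c.Bad K L p then Pr v x else 0 := by
    filter_upwards [hae] with x hx
    have h := hC c.q K L (fun i b => c.wt Z b (c.T^[p * ((i : ℕ) + 1)] x)) th (c.Bad K L p)
      (c.code K L p) hKL h0 h1 (fun i b => (hx i).1 b) (fun i => (hx i).2)
    have e : ∀ i : Fin (L + K), th * (1 - ∑ b, c.wt Z b (c.T^[p * ((i : ℕ) + 1)] x) ^ 2) =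
        G i x := by
      intro i
      rw [← vv_eq c Z _ (hx i)]
      simp only [hG, hg]
    simp only [e] at h
    rw [hsg, hDD]
    exact h
  have i1 : Integrable (fun x => ∑ i, sg i * G i x) c.μ :=
    integrable_finsetSum _ fun i _ => (hGi i).const_mul _
  have i2 : Integrable (fun x => ∑ i, ∑ j, DD i j x) c.μ :=
    integrable_finsetSum _ fun i _ => integrable_finsetSum _ fun j _ => hDDi i j
  have i3' : ∀ v, Integrable (fun x => if v ∈ c.Bad K L p then Pr v x else 0) c.μ := by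
    intro v
    by_cases hv : v ∈ c.Bad K L p
    · simp only [hv, if_true]
      exact hPi v
    · simp only [hv, if_false]
      exact integrable_const 0
  have i3 : Integrable (fun x => 2 * ∑ v : Fin (L + K) → Fin c.q, if v ∈ c.Bad K L p then Pr v x else 0)
      c.μ := (integrable_finsetSum _ fun v _ => i3' v).const_mul 2
  have hint := integral_mono_ae (i1.sub i2) i3 hpt
  have r1 : ∫ x, (∑ i, sg i * G i x - ∑ i, ∑ j, DD i j x) ∂c.μ =
      ∑ i, sg i * ∫ x, G i x ∂c.μ - ∑ i, ∑ j, ∫ x, DD i j x ∂c.μ := by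
    rw [integral_sub i1 i2, integral_finsetSum _ fun i _ => (hGi i).const_mul _,
      integral_finsetSum _ fun i _ => integrable_finsetSum _ fun j _ => hDDi i j]
    congr 1
    · refine Finset.sum_congr rfl fun i _ => ?_
      rw [integral_const_mul]
    · refine Finset.sum_congr rfl fun i _ => ?_
      rw [integral_finsetSum _ fun j _ => hDDi i j]
  have r2 : ∫ x, 2 * (∑ v : Fin (L + K) → Fin c.q, if v ∈ c.Bad K L p then Pr v x else 0) ∂c.μ =
      2 * ∑ v : Fin (L + K) → Fin c.q, if v ∈ c.Bad K L p then ∫ x, Pr v x ∂c.μ else 0 := by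
    rw [integral_const_mul, integral_finsetSum _ fun v _ => i3' v]
    congr 1
    refine Finset.sum_congr rfl fun v _ => ?_
    by_cases hv : v ∈ c.Bad K L p
    · simp only [hv, if_true]
    · simp only [hv, if_false, integral_zero]
  have hinv : ∀ (f : c.X → ℝ), Measurable f → ∀ n : ℕ,
      ∫ x, f (c.T^[n] x) ∂c.μ = ∫ x, f x ∂c.μ := by
    intro f hf n
    have h := int_inv (A := Set.univ) mp MeasurableSet.univ f hf n
    simpa using h
  have r3 : ∀ i, ∫ x, G i x ∂c.μ = ∫ x, g x ∂c.μ := fun i => hinv g hgm _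
  set k : ℕ → ℝ := fun d => ∫ x, g x * g (c.T^[p * d] x) ∂c.μ with hk
  have hk0 : ∀ d, 0 ≤ k d := fun d => integral_nonneg fun ω => mul_nonneg (hg0 _) (hg0 _)
  have hlt : ∀ i j : Fin (L + K), (i : ℕ) < j → ∫ x, G i x * G j x ∂c.μ = k ((j : ℕ) - i) := by
    intro i j hij
    have h1 := hinv (fun x => g x * g (c.T^[p * ((j : ℕ) - i)] x))
      (hgm.mul (hgm.comp (c.T.measurable.iterate _))) (p * ((i : ℕ) + 1))
    have h2 : ∀ x, c.T^[p * ((j : ℕ) - i)] (c.T^[p * ((i : ℕ) + 1)] x) =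
        c.T^[p * ((j : ℕ) + 1)] x := by
      intro x
      rw [← Function.iterate_add_apply]
      have : p * ((j : ℕ) - i) + p * ((i : ℕ) + 1) = p * ((j : ℕ) + 1) := by
        rw [← mul_add]
        congr 1
        omega
      rw [this]
    simp only [h2] at h1
    exact h1
  have hL0 : 0 ≤ (L : ℝ) - K := by
    have : (K : ℝ) ≤ L := by exact_mod_cast hKL
    linarith
  have hks : 0 ≤ ∑ d ∈ Icc 1 L, k d := Finset.sum_nonneg fun d _ => hk0 d
  have r4 : ∀ i : Fin (L + K), ∑ j, ∫ x, DD i j x ∂c.μ ≤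
      if i ∈ I then 2 * ∑ d ∈ Icc 1 L, k d else 0 := by
    intro i
    by_cases hi : i ∈ I
    · rw [if_pos hi]
      have h1 := pair_sum (L + K) I L (fun i hi => ((hmI i).1 hi).2) k hk0 i hi
      refine le_trans (le_of_eq ?_) h1
      rw [Finset.filter_congr (q := fun j => i ≠ j) (fun j _ => ne_comm), Finset.sum_filter]
      have e0 : ∑ j, ∫ x, DD i j x ∂c.μ = ∑ j ∈ I, ∫ x, DD i j x ∂c.μ := by
        symm
        refine Finset.sum_subset (Finset.subset_univ _) fun j _ hj => ?_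
        have hj' : ¬ (K ≤ (j : ℕ) ∧ (j : ℕ) < L) := fun h => hj ((hmI j).2 h)
        rw [hDD]
        simp only [hj', false_and, and_false, if_false, integral_zero]
      rw [e0]
      refine Finset.sum_congr rfl fun j hj => ?_
      have hi' := (hmI i).1 hi
      have hj' := (hmI j).1 hj
      by_cases hij : i = j
      · have e1 : DD i j = fun _ => 0 := by
          rw [hDD]
          funext x
          exact if_neg fun h => h.2.2 hij
        rw [e1, integral_zero, if_neg (fun h => h hij)]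
      · have e1 : DD i j = fun x => G i x * G j x := by
          rw [hDD]
          funext x
          exact if_pos ⟨hi', hj', hij⟩
        rw [e1, if_pos hij]
        rcases lt_trichotomy (i : ℕ) j with h | h | h
        · rw [if_pos h]
          exact hlt i j h
        · exact absurd (Fin.ext h) hij
        · rw [if_neg (by omega), ← hlt j i h]
          exact integral_congr_ae (Filter.Eventually.of_forall fun x => mul_comm _ _)
    · rw [if_neg hi]
      refine le_of_eq (Finset.sum_eq_zero fun j _ => ?_)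
      have hi' : ¬ (K ≤ (i : ℕ) ∧ (i : ℕ) < L) := fun h => hi ((hmI i).2 h)
      rw [hDD]
      simp only [hi', false_and, if_false, integral_zero]
  have r5 : ∑ i, ∑ j, ∫ x, DD i j x ∂c.μ ≤ 2 * ((L : ℝ) - K) * ∑ d ∈ Icc 1 L, k d := by
    refine (Finset.sum_le_sum fun i _ => r4 i).trans (le_of_eq ?_)
    rw [← Finset.sum_filter, Finset.filter_mem_eq_inter, Finset.univ_inter, Finset.sum_const,
      nsmul_eq_mul, hIc]
    ring
  have r6 : ∑ i, sg i * ∫ x, G i x ∂c.μ = ((L : ℝ) - 3 * K) * ∫ x, g x ∂c.μ := by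
    rw [Finset.sum_congr rfl fun i _ => by rw [r3 i], ← Finset.sum_mul, hsgs]
  have hint' : ∑ i, sg i * ∫ x, G i x ∂c.μ - ∑ i, ∑ j, ∫ x, DD i j x ∂c.μ ≤
      2 * ∑ v : Fin (L + K) → Fin c.q, if v ∈ c.Bad K L p then ∫ x, Pr v x ∂c.μ else 0 := by
    rw [← r1, ← r2]
    exact hint
  rw [r6] at hint'
  have e1 : ∑ d ∈ Icc 1 L,
        ∫ x in Set.univ, (th * c.vv Z x) * (th * c.vv Z (c.T^[p * d] x)) ∂c.μ =
      ∑ d ∈ Icc 1 L, k d := by
    refine Finset.sum_congr rfl fun d _ => ?_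
    rw [Measure.restrict_univ, hk]
    simp only [hg]
  have e2 : ∫ x, th * c.vv Z x ∂c.μ = ∫ x, g x ∂c.μ := by rw [hg]
  rw [e1, e2]
  linarith

theorem pf_RSM (hP : T_P3W) (hC : T_CPL) (hU : Pool.Agent.H67.AG.T_UL) : T_RSM := by
  classical
  intro c K L J th hK hKL hm h0 h1
  set Z : SA c.X := tow c.μ c.T J with hZ
  have mp : MeasurePreserving c.T c.μ c.μ := c.erg.toMeasurePreserving
  obtain ⟨g, hg⟩ : ∃ g : c.X → ℝ, g = fun x => th * c.vv Z x := ⟨_, rfl⟩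
  have hgm : Measurable g := by
    rw [hg]
    exact (vv_meas c Z).const_mul th
  have hg0 : ∀ x, 0 ≤ g x := fun x => by
    rw [hg]
    exact mul_nonneg h0 (vv_nonneg c Z x)
  have hg1 : ∀ x, g x ≤ 1 := fun x => by
    rw [hg]
    exact mul_le_one₀ h1 (vv_nonneg c Z x) (vv_le c Z x)
  set Sm : ℕ → ℝ := fun p => ∑ v : Fin (L + K) → Fin c.q, if v ∈ c.Bad K L p then
    ∫ x, ∏ i, c.wt Z (v i) (c.T^[p * ((i : ℕ) + 1)] x) ∂c.μ else 0 with hSm
  set F : ℕ → ℝ := fun p => c.s p * Sm p with hF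
  set k : ℕ → ℕ → ℝ := fun d p => ∫ x in Set.univ, g x * g (c.T^[p * d] x) ∂c.μ with hk
  have hs0 : ∀ p, 0 ≤ c.s p := fun p => by rcases c.sv p with h | h <;> rw [h]; norm_num
  have hs1 : ∀ p, c.s p ≤ 1 := fun p => by rcases c.sv p with h | h <;> rw [h]; norm_num
  have hk0 : ∀ d p, 0 ≤ k d p := fun d p => integral_nonneg fun x => mul_nonneg (hg0 _) (hg0 _)
  have hk1 : ∀ d p, k d p ≤ 1 := by
    intro d p
    have h2 : k d p ≤ ∫ _x in Set.univ, (1 : ℝ) ∂c.μ := by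
      refine integral_mono (int_bdd (hgm.mul (hgm.comp (c.T.measurable.iterate _))) 1 fun x =>
        abs_le.2 ⟨?_, ?_⟩) (integrable_const 1) fun x => ?_
      · have := mul_nonneg (hg0 x) (hg0 (c.T^[p * d] x))
        change -1 ≤ g x * g (c.T^[p * d] x)
        linarith
      · exact mul_le_one₀ (hg1 _) (hg0 _) (hg1 _)
      · exact mul_le_one₀ (hg1 _) (hg0 _) (hg1 _)
    refine h2.trans ?_
    rw [setIntegral_const, smul_eq_mul, mul_one]
    exact measureReal_le_one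
  -- bounds for the sums over words
  have hprod : ∀ (p : ℕ) (v : Fin (L + K) → Fin c.q),
      0 ≤ ∫ x, ∏ i, c.wt Z (v i) (c.T^[p * ((i : ℕ) + 1)] x) ∂c.μ ∧
      ∫ x, ∏ i, c.wt Z (v i) (c.T^[p * ((i : ℕ) + 1)] x) ∂c.μ ≤ 1 := by
    intro p v
    have hae : ∀ᵐ x ∂c.μ, ∀ i : Fin (L + K), (∀ b, 0 ≤ c.wt Z b (c.T^[p * ((i : ℕ) + 1)] x)) ∧
        ∑ b, c.wt Z b (c.T^[p * ((i : ℕ) + 1)] x) = 1 := by
      rw [ae_all_iff]
      intro i
      exact (mp.iterate (p * ((i : ℕ) + 1))).quasiMeasurePreserving.ae (wt_ae c Z)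
    have hle : ∀ᵐ x ∂c.μ, 0 ≤ ∏ i, c.wt Z (v i) (c.T^[p * ((i : ℕ) + 1)] x) ∧
        ∏ i, c.wt Z (v i) (c.T^[p * ((i : ℕ) + 1)] x) ≤ 1 := by
      filter_upwards [hae] with x hx
      refine ⟨Finset.prod_nonneg fun i _ => (hx i).1 (v i), ?_⟩
      refine Finset.prod_le_one (fun i _ => (hx i).1 (v i)) fun i _ => ?_
      rw [← (hx i).2]
      exact Finset.single_le_sum (f := fun b => c.wt Z b (c.T^[p * ((i : ℕ) + 1)] x))
        (fun b _ => (hx i).1 b) (Finset.mem_univ _)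
    have hm' : Measurable fun x => ∏ i, c.wt Z (v i) (c.T^[p * ((i : ℕ) + 1)] x) :=
      Finset.measurable_prod _ fun i _ => (wt_meas c Z (v i)).comp (c.T.measurable.iterate _)
    have hi : Integrable (fun x => ∏ i, c.wt Z (v i) (c.T^[p * ((i : ℕ) + 1)] x)) c.μ := by
      refine Integrable.of_bound hm'.aestronglyMeasurable 1 ?_
      filter_upwards [hle] with x hx
      rw [Real.norm_eq_abs, abs_of_nonneg hx.1]
      exact hx.2
    refine ⟨integral_nonneg_of_ae (hle.mono fun x hx => hx.1), ?_⟩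
    have h3 := integral_mono_ae hi (integrable_const (1 : ℝ)) (hle.mono fun x hx => hx.2)
    simpa using h3
  obtain ⟨Kc, hKc⟩ : ∃ Kc : ℝ, Kc = (Fintype.card (Fin (L + K) → Fin c.q) : ℝ) := ⟨_, rfl⟩
  have hKc0 : 0 ≤ Kc := by rw [hKc]; exact Nat.cast_nonneg _
  have hSm0 : ∀ p, 0 ≤ Sm p := by
    intro p
    refine Finset.sum_nonneg fun v _ => ?_
    split_ifs
    · exact (hprod p v).1
    · exact le_rfl
  have hSm1 : ∀ p, Sm p ≤ Kc := by
    intro p
    calc Sm p ≤ ∑ _v : Fin (L + K) → Fin c.q, (1 : ℝ) := by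
          refine Finset.sum_le_sum fun v _ => ?_
          split_ifs
          · exact (hprod p v).2
          · exact zero_le_one
      _ = Kc := by rw [hKc]; simp
  obtain ⟨mg, hmg⟩ : ∃ mg : ℝ, mg = ((L : ℝ) - 3 * K) * ∫ x, th * c.vv Z x ∂c.μ := ⟨_, rfl⟩
  have hI0 : (0 : ℝ) ≤ 2 * ((L : ℝ) - K) := by
    have : (K : ℝ) ≤ L := by exact_mod_cast hKL
    linarith
  -- one prime with the flag
  have hone : ∀ p, mg * c.s p ≤ 2 * F p + (2 * ((L : ℝ) - K)) * ∑ d ∈ Icc 1 L, k d p := by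
    intro p
    have hsum : 0 ≤ (2 * ((L : ℝ) - K)) * ∑ d ∈ Icc 1 L, k d p :=
      mul_nonneg hI0 (Finset.sum_nonneg fun d _ => hk0 d p)
    have h3 := one_prime c hC K L hKL Z th h0 h1 p
    have h4 : mg ≤ 2 * Sm p + (2 * ((L : ℝ) - K)) * ∑ d ∈ Icc 1 L, k d p := by
      rw [hmg]
      refine h3.trans (le_of_eq ?_)
      simp only [hSm, hk, hg]
    rcases c.sv p with h | h
    · simp only [hF, h, mul_zero, zero_mul, zero_add]
      exact hsum
    · simp only [hF, h, mul_one, one_mul]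
      exact h4
  have bs : ∀ m, |avgP 2 m c.s| ≤ 1 := fun m => avg_abs 2 m c.s 1 zero_le_one fun p =>
    abs_le.2 ⟨by linarith [hs0 p], hs1 p⟩
  have bF : ∀ m, |avgP 2 m F| ≤ Kc := fun m => avg_abs 2 m F Kc hKc0 fun p => by
    have h2 : 0 ≤ F p := mul_nonneg (hs0 p) (hSm0 p)
    rw [abs_of_nonneg h2]
    calc F p ≤ 1 * Sm p := mul_le_mul_of_nonneg_right (hs1 p) (hSm0 p)
      _ = Sm p := one_mul _
      _ ≤ Kc := hSm1 p
  have bk : ∀ d m, |avgP 2 m (k d)| ≤ 1 := fun d m => avg_abs 2 m (k d) 1 zero_le_one fun p =>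
    abs_le.2 ⟨by linarith [hk0 d p], hk1 d p⟩
  have h2 : ∀ m, mg * avgP 2 m c.s ≤ 2 * avgP 2 m F +
      (2 * ((L : ℝ) - K)) * ∑ d ∈ Icc 1 L, avgP 2 m (k d) := by
    intro m
    have h3 := avg_mono 2 m _ _ hone
    rw [avg_mul, avg_add, avg_mul, avg_mul, avg_sum] at h3
    exact h3
  obtain ⟨hu1, hu2, hu3, hu4, hu5⟩ := hU c.U
  obtain ⟨⟨C', hC'⟩, hsumul⟩ := ul_sum hU c.U (Icc 1 L) (fun d m => avgP 2 m (k d)) 1 bk
  have b1 : ∃ C, ∀ m, |mg * avgP 2 m c.s| ≤ C :=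
    ⟨|mg| * 1, fun m => by
      rw [abs_mul]
      exact mul_le_mul_of_nonneg_left (bs m) (abs_nonneg _)⟩
  have b2 : ∃ C, ∀ m, |2 * avgP 2 m F| ≤ C :=
    ⟨|2| * Kc, fun m => by
      rw [abs_mul]
      exact mul_le_mul_of_nonneg_left (bF m) (abs_nonneg _)⟩
  have b3 : ∃ C, ∀ m, |(2 * ((L : ℝ) - K)) * ∑ d ∈ Icc 1 L, avgP 2 m (k d)| ≤ C :=
    ⟨|2 * ((L : ℝ) - K)| * C', fun m => by
      rw [abs_mul]
      exact mul_le_mul_of_nonneg_left (hC' m) (abs_nonneg _)⟩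
  have b4 : ∃ C, ∀ m, |2 * avgP 2 m F +
      (2 * ((L : ℝ) - K)) * ∑ d ∈ Icc 1 L, avgP 2 m (k d)| ≤ C := by
    obtain ⟨C2, h2'⟩ := b2
    obtain ⟨C3, h3'⟩ := b3
    exact ⟨C2 + C3, fun m => (abs_add_le _ _).trans (add_le_add (h2' m) (h3' m))⟩
  have h4 := hu2 (fun m => mg * avgP 2 m c.s)
    (fun m => 2 * avgP 2 m F + (2 * ((L : ℝ) - K)) * ∑ d ∈ Icc 1 L, avgP 2 m (k d)) b1 b4
    (Filter.Eventually.of_forall h2)
  rw [hu4 (fun m => avgP 2 m c.s) _ ⟨1, bs⟩,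
    hu3 (fun m => 2 * avgP 2 m F) _ b2 b3,
    hu4 (fun m => avgP 2 m F) _ ⟨Kc, bF⟩,
    hu4 (fun m => ∑ d ∈ Icc 1 L, avgP 2 m (k d)) _ ⟨C', hC'⟩, hsumul] at h4
  have hLa : La c.U c.s c.μ c.T c.a (c.Bad K L) Set.univ = ul c.U (fun m => avgP 2 m F) := by
    rw [hP c K L J hK hm]
  rw [hLa]
  have h5 : ds c.U c.s * ((L : ℝ) - 3 * K) * ∫ x, th * c.vv Z x ∂c.μ = mg * ds c.U c.s := by
    rw [hmg]
    ring
  rw [h5]
  have h6 : ∀ d, Cd c.U c.μ c.T (fun x => th * c.vv Z x) Set.univ d =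
      ul c.U (fun m => avgP 2 m (k d)) := by
    intro d
    unfold Cd
    simp only [hk, hg]
  simp only [h6]
  exact h4

end Pool.Agent.H33.LF
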